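import Pool.Agent.X222.PZ.Dbl

/-!
# MP_d57cd0_co: every pircon is an induced pircon of some zircon

Let `P` be a pircon. For `x ≤ y` in `P` write `b(x, y)` if `[x, y]` contains an interval `[u, v]` of rank
two with exactly one middle element. The zircon is the *double* of `P`: it has the elements `x` and
`x'` (`x ∈ P`), where

* `x ≤ y`, `x ≤ y'` and `x' ≤ y'` mean `x ≤ y` in `P`,
* `x' ≤ y` means `b(x, y)`.

The double is graded by `rk x' = rk x + 1`. The ideal below `p'` has the special matching `x ↔ x'`. If `M`
is a special partial matching of the ideal of `P` below `p` then the ideal of the double below `p` has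
the special matching which is `x ↦ M x`, `x' ↦ (M x)'` if `M x ≠ x`, and `x ↔ x'` if `M x = x`. This
rests on the following facts about special partial matchings: there is an interval of rank two with
one middle element above each fixed point, and if `y ⋖ M y` and `b(y, p)` then `b(M y, p)`.

(For the elements `x ≤ p` the covering relation of the ideal of `p` is the one of `P`, so the
special partial matchings of the ideal of the elements `≤ p` are given by functions on `P`, of which
only the values on this ideal matter.)
-/

namespace Pool.Agent.Results.MP_d57cd0_co.InducedPircon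

open Pool.Agent.X222.PZ

universe u

/-- For each element `z` which is not minimal the ideal of the elements `≤ z` is finite and `M z` is a
special matching of it, that is, a special partial matching without fixed points. -/
def SpecialMatchings {Z : Type u} [PartialOrder Z] (M : Z → Z → Z) : Prop :=
  ∀ z : Z, ¬ IsMin z → (Set.Iic z).Finite ∧ IsSPM z (M z) ∧ ∀ x ≤ z, M z x ≠ x

open Classical in
/-- The map induced on `P ⊆ Z` by `N : Z → Z`: it maps `x` to `N x` if this is an element of `P`, and to
`x` otherwise. Here `P` is embedded in `Z` by `e`. -/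
noncomputable def restr {P Z : Type u} [PartialOrder P] [PartialOrder Z] (e : P ↪o Z) (N : Z → Z)
    (x : P) : P :=
  if h : ∃ y : P, e y = N (e x) then h.choose else x

/-- `P`, embedded by `e` as an induced subposet of the zircon `Z` with the special matchings `M z` and
the rank function `rk`, is an induced pircon of `Z`. -/
def IsInducedPircon {P Z : Type u} [PartialOrder P] [PartialOrder Z] (M : Z → Z → Z) (rk : Z → ℕ)
    (e : P ↪o Z) : Prop :=
  (∀ p : P, ¬ IsMin p → IsSPM p (restr e (M (e p)))) ∧ IsRank (fun p => rk (e p))

/-- Every pircon is an induced pircon of some zircon. -/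
theorem result (P : Type u) [PartialOrder P] (hP : Pircon P) :
    ∃ (Z : Type u) (_ : PartialOrder Z) (M : Z → Z → Z) (rk : Z → ℕ) (e : P ↪o Z),
      SpecialMatchings M ∧ IsRank rk ∧ IsInducedPircon M rk e := by
  classical
  obtain ⟨rk, hr⟩ := exists_rank hP
  have hf := finite_Iic (fun p hp => (hP p hp).1)
  have h0 : ∀ p : P, ∃ N : P → P, ¬ IsMin p → IsSPM p N := by
    intro p
    by_cases hp : IsMin p
    · exact ⟨id, fun h => absurd hp h⟩
    · obtain ⟨N, hN⟩ := (hP p hp).2
      exact ⟨N, fun _ => hN⟩
  choose N hN using h0
  let M : Dbl P → Dbl P → Dbl P := fun z =>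
    match z with
    | Dbl.o p => Dbl.ext (N p)
    | Dbl.i _ => Dbl.swap
  let e : P ↪o Dbl P :=
    { toFun := Dbl.o
      inj' := fun x y h => by injection h
      map_rel_iff' := Iff.rfl }
  refine ⟨Dbl P, inferInstance, M, Dbl.rkD rk, e, ?_, Dbl.isRank_rkD hr, ?_, hr⟩
  · rintro (p | p) hp
    · have hp' : ¬ IsMin p := fun h => hp (Dbl.isMin_o.2 h)
      exact ⟨Dbl.finite_D hf _, Dbl.ext_spm hf hr (hN p hp'), fun x _ => Dbl.ext_ne _ x⟩
    · exact ⟨Dbl.finite_D hf _, Dbl.swap_spm p, fun x _ => Dbl.swap_ne x⟩
  · intro p hp
    have h1 : restr e (M (e p)) = N p := by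
      funext x
      unfold restr
      by_cases hx : N p x = x
      · have h2 : M (e p) (e x) = Dbl.i x := Dbl.ext_o_fix hx
        rw [dif_neg, hx]
        rintro ⟨y, hy⟩
        rw [h2] at hy
        exact nomatch hy
      · have h2 : M (e p) (e x) = Dbl.o (N p x) := Dbl.ext_o hx
        have h3 : ∃ y : P, e y = M (e p) (e x) := ⟨N p x, h2.symm⟩
        rw [dif_pos h3]
        have h4 : e h3.choose = e (N p x) := h3.choose_spec.trans h2
        exact e.injective h4
    rw [h1]
    exact hN p hp

end Pool.Agent.Results.MP_d57cd0_co.InducedPircon
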